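import Mathlib
import Pool.Agent.helper68.AM.Spec

/-!
Project sl: (AM), module MU: Moebius exponential sum with phase `Y / n`.
-/

set_option autoImplicit false

namespace AM

open Pool.Agent.helper72.Sq Finset

theorem MU_norm_ee (t : ℝ) : ‖ee t‖ = 1 := by
  unfold ee
  exact Complex.norm_exp_ofReal_mul_I _

theorem MU_abs_mu (n : ℕ) : |mu n| ≤ 1 := by
  unfold mu
  have h := ArithmeticFunction.abs_moebius_le_one (n := n)
  rw [← Int.cast_abs]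
  exact_mod_cast h

/-- exponentials beat powers -/
theorem MU_L : ∃ L : ℝ, 1 ≤ L ∧ ∀ j : ℕ, ((j : ℝ) + 1) ^ 8 ≤ L ^ 4 * 2 ^ j := by
  have h1 : Filter.Tendsto (fun n : ℕ => (n : ℝ) ^ 8 / (2 : ℝ) ^ n) Filter.atTop (nhds 0) :=
    tendsto_pow_const_div_const_pow_of_one_lt 8 (by norm_num)
  obtain ⟨K, hK⟩ := h1.bddAbove_range
  have hK' : ∀ n : ℕ, (n : ℝ) ^ 8 / (2 : ℝ) ^ n ≤ K := fun n => hK ⟨n, rfl⟩
  refine ⟨max 1 (2 * K), le_max_left _ _, fun j => ?_⟩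
  have h2 := hK' (j + 1)
  rw [div_le_iff₀ (by positivity)] at h2
  push_cast at h2
  have h3 : (1 : ℝ) ≤ max 1 (2 * K) := le_max_left _ _
  have h4 : 2 * K ≤ max 1 (2 * K) := le_max_right _ _
  have h5 : max 1 (2 * K) ≤ (max 1 (2 * K)) ^ 4 := le_self_pow₀ h3 (by norm_num)
  calc ((j : ℝ) + 1) ^ 8 ≤ K * 2 ^ (j + 1) := h2
    _ = 2 * K * 2 ^ j := by ring
    _ ≤ (max 1 (2 * K)) ^ 4 * 2 ^ j := by
        apply mul_le_mul_of_nonneg_right (h4.trans h5) (by positivity)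

/-- the bound for one dyadic block -/
theorem MU_block (hBL : BL_stmt) (j : ℕ) (hj : 1 ≤ j) (D Y : ℝ) (N1 N2 P : ℕ) (T : Finset ℕ)
    (b : ℕ → ℝ) (hD : 2 ^ (12 * j) ≤ D) (hY : 0 < Y) (hYD : Y ≤ 2 ^ (3 * j) * D) (hN1 : D ≤ (N1 : ℝ) + 1) (hN2 : (N2 : ℝ) ≤ 2 * D)
    (hP : 1 ≤ P) (hT : ∀ p ∈ T, P < p ∧ p ≤ 2 * P) (hT2 : ∀ p ∈ T, p ≤ 2 ^ j)
    (hb : ∀ m, |b m| ≤ 1) :
    ‖∑ p ∈ T, ∑ m ∈ (range (N2 + 1)).filter (fun m => N1 < p * m ∧ p * m ≤ N2),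
      ((b m : ℝ) : ℂ) * ee (Y / ((p * m : ℕ) : ℝ))‖ ≤
      2 * D / Real.sqrt P + 4 * D * Real.sqrt (((j : ℝ) + 1) * D / Y) := by
  have hDpos : 0 < D := lt_of_lt_of_le (by positivity) hD
  have hP0 : (0 : ℝ) < P := by exact_mod_cast hP
  rcases T.eq_empty_or_nonempty with hTe | ⟨p0, hp0⟩
  · rw [hTe, Finset.sum_empty, norm_zero]
    positivity
  · have hPj : P < 2 ^ j := (hT p0 hp0).1.trans_le (hT2 p0 hp0)
    have hPj' : (P : ℝ) ≤ 2 ^ j := by exact_mod_cast hPj.le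
    have h1D : 1 ≤ D := le_trans (one_le_pow₀ (by norm_num)) hD
    have h8 : 8 * Y * P ≤ D ^ 2 := by
      have h1 : 8 * Y * P ≤ 8 * (2 ^ (3 * j) * D) * 2 ^ j := by gcongr
      have h2 : 8 * (2 ^ (3 * j) * D) * 2 ^ j = 2 ^ (4 * j + 3) * D := by
        rw [pow_add, show 4 * j = 3 * j + j by ring, pow_add]; ring
      have h3 : (2 : ℝ) ^ (4 * j + 3) ≤ 2 ^ (12 * j) := pow_le_pow_right₀ (by norm_num) (by omega)
      rw [h2] at h1
      calc 8 * Y * P ≤ 2 ^ (4 * j + 3) * D := h1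
        _ ≤ D * D := by gcongr; exact h3.trans hD
        _ = D ^ 2 := by ring
    have hmain := hBL D Y P N1 N2 T b h1D hP hY h8 hN1 hN2 hT hb
    have hlog : Real.log P ≤ j := by
      have h1 : Real.log P ≤ Real.log (2 ^ j) := Real.log_le_log hP0 hPj'
      rw [Real.log_pow] at h1
      have h2 : Real.log 2 ≤ 1 := by
        have := Real.log_two_lt_d9
        linarith
      have h3 : (j : ℝ) * Real.log 2 ≤ j * 1 := by gcongr
      linarith
    have h2 : 4 * D ^ 2 / P + 16 * D ^ 3 * (1 + Real.log P) / Y ≤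
        (2 * D / Real.sqrt P + 4 * D * Real.sqrt (((j : ℝ) + 1) * D / Y)) ^ 2 := by
      have h3 : 0 ≤ ((j : ℝ) + 1) * D / Y := by positivity
      have h4 : (2 * D / Real.sqrt P) ^ 2 = 4 * D ^ 2 / P := by
        rw [div_pow, Real.sq_sqrt hP0.le]; ring
      have h5 : (4 * D * Real.sqrt (((j : ℝ) + 1) * D / Y)) ^ 2 =
          16 * D ^ 3 * (1 + (j : ℝ)) / Y := by
        rw [mul_pow, Real.sq_sqrt h3]; ring
      have h6 : 16 * D ^ 3 * (1 + Real.log P) / Y ≤ 16 * D ^ 3 * (1 + (j : ℝ)) / Y := by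
        gcongr
      have h7 : 0 ≤ 2 * (2 * D / Real.sqrt P) *
          (4 * D * Real.sqrt (((j : ℝ) + 1) * D / Y)) := by positivity
      rw [add_sq, h4, h5]
      linarith
    have h3 : 0 ≤ 2 * D / Real.sqrt P + 4 * D * Real.sqrt (((j : ℝ) + 1) * D / Y) := by
      positivity
    exact abs_le_of_sq_le_sq' (hmain.trans h2) h3 |>.2

theorem MU (hBL : BL_stmt) (hRAM : RAM_stmt) (hSV : SV_stmt) : MU_stmt := by
  obtain ⟨CS, hCS, hsv⟩ := hSV
  obtain ⟨L, hL1, hL⟩ := MU_L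
  refine ⟨2 * CS / Real.log 2 + 4 + 16 + 4 * L, ?_, ?_⟩
  · have : 0 < Real.log 2 := Real.log_pos (by norm_num)
    positivity
  intro j hj D Y N1 N2 hD hY hDY hYD hN1 hN2
  have hDpos : 0 < D := lt_of_lt_of_le (by positivity) hD
  have hjr : (1 : ℝ) ≤ j := by exact_mod_cast hj
  have hlog2 : 0 < Real.log 2 := Real.log_pos (by norm_num)
  -- the fourth root of `j`
  set u : ℝ := (j : ℝ) ^ (1 / 4 : ℝ) with hu
  have hu1 : 1 ≤ u := Real.one_le_rpow hjr (by norm_num)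
  have hupos : 0 < u := by linarith
  have hu4 : u ^ 4 = j := by
    rw [hu, ← Real.rpow_natCast, ← Real.rpow_mul (by linarith)]
    norm_num
  have huneg : (j : ℝ) ^ (-(1 / 4) : ℝ) = 1 / u := by
    rw [Real.rpow_neg (by linarith), ← hu]
    exact (one_div u).symm
  rw [huneg]
  -- `P0`
  set P0 := Nat.sqrt j with hP0
  have hP01 : 1 ≤ P0 := Nat.sqrt_pos.2 hj
  have hP0r : (1 : ℝ) ≤ P0 := by exact_mod_cast hP01
  have hP0le : (P0 : ℝ) ≤ u ^ 2 := by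
    have h1 : P0 ^ 2 ≤ j := Nat.sqrt_le' j
    have h2 : (P0 : ℝ) ^ 2 ≤ (u ^ 2) ^ 2 := by
      rw [← pow_mul, hu4]; exact_mod_cast h1
    exact abs_le_of_sq_le_sq' h2 (by positivity) |>.2
  have hP0ge : u ^ 2 ≤ 2 * P0 := by
    have h1 : j < (P0 + 1) ^ 2 := Nat.lt_succ_sqrt' j
    have h2 : (u ^ 2) ^ 2 ≤ ((P0 : ℝ) + 1) ^ 2 := by
      rw [← pow_mul, hu4]; exact_mod_cast h1.le
    have h3 := abs_le_of_sq_le_sq' h2 (by positivity) |>.2
    linarith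
  have hQ0 : 2 ≤ 2 ^ j := by
    calc 2 = 2 ^ 1 := by norm_num
      _ ≤ 2 ^ j := Nat.pow_le_pow_right (by norm_num) hj
  -- the empty case
  by_cases hN : N2 < 2 ^ j
  · have h1 : Ioc N1 N2 = ∅ := by
      rw [Finset.Ioc_eq_empty_iff]
      intro h
      have h2 : ((N1 : ℝ) + 1) ≤ N2 := by exact_mod_cast h
      have h3 : (N2 : ℝ) < 2 ^ j := by exact_mod_cast hN
      have h4 : (2 : ℝ) ^ j ≤ 2 ^ (12 * j) := pow_le_pow_right₀ (by norm_num) (by omega)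
      linarith
    rw [h1, Finset.sum_empty, norm_zero]
    positivity
  push Not at hN
  set W := Wp P0 (2 ^ j) with hW
  have hWmem : ∀ p, p ∈ W ↔ (P0 < p ∧ p ≤ 2 ^ j) ∧ p.Prime := by
    intro p
    rw [hW, Wp, Finset.mem_filter, Finset.mem_Ioc]
  set b : ℕ → ℝ := fun m => mu m / ((W.filter (fun q => q ∣ m)).card + 1) with hb
  have hb1 : ∀ m, |b m| ≤ 1 := by
    intro m
    rw [hb]
    simp only
    rw [abs_div, div_le_one (by positivity)]
    refine (MU_abs_mu m).trans ?_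
    rw [abs_of_pos (by positivity)]
    have : (0 : ℝ) ≤ ((W.filter (fun q => q ∣ m)).card : ℝ) := by positivity
    linarith
  have hram := hRAM W N1 N2 (fun n => ee (Y / n)) (fun p hp => ((hWmem p).1 hp).2)
    (fun n => (MU_norm_ee _).le)
  -- the bilinear sum
  set SB := ∑ p ∈ W, ∑ m ∈ (range (N2 + 1)).filter (fun m => N1 < p * m ∧ p * m ≤ N2),
        ((mu m / ((W.filter (fun q => q ∣ m)).card + 1) : ℝ) : ℂ) * ee (Y / ((p * m : ℕ) : ℝ))
    with hSB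
  have hblocks : SB = ∑ i ∈ range (j + 1), ∑ p ∈ W.filter (fun p => Nat.log 2 ((p - 1) / P0) = i),
      ∑ m ∈ (range (N2 + 1)).filter (fun m => N1 < p * m ∧ p * m ≤ N2),
        ((b m : ℝ) : ℂ) * ee (Y / ((p * m : ℕ) : ℝ)) := by
    rw [hSB]
    symm
    apply Finset.sum_fiberwise_of_maps_to
    intro p hp
    obtain ⟨⟨h1, h2⟩, -⟩ := (hWmem p).1 hp
    rw [Finset.mem_range]
    have h3 : (p - 1) / P0 < 2 ^ j := by
      refine lt_of_le_of_lt (Nat.div_le_self _ _) ?_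
      omega
    have h4 : 1 ≤ (p - 1) / P0 := by
      rw [Nat.le_div_iff_mul_le (by omega)]; omega
    have h5 := Nat.log_lt_of_lt_pow (b := 2) (by omega) h3
    omega
  have hnorm : ‖SB‖ ≤ ∑ i ∈ range (j + 1), (2 * D / Real.sqrt ((P0 * 2 ^ i : ℕ) : ℝ) +
      4 * D * Real.sqrt (((j : ℝ) + 1) * D / Y)) := by
    rw [hblocks]
    refine (norm_sum_le _ _).trans (Finset.sum_le_sum fun i _ => ?_)
    refine MU_block hBL j hj D Y N1 N2 (P0 * 2 ^ i) _ b hD hY hYD hN1 hN2 ?_ ?_ ?_ hb1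
    · exact Nat.one_le_iff_ne_zero.2 (by positivity)
    · intro p hp
      rw [Finset.mem_filter] at hp
      obtain ⟨⟨h1, h2⟩, -⟩ := (hWmem p).1 hp.1
      have h4 : 1 ≤ (p - 1) / P0 := by
        rw [Nat.le_div_iff_mul_le (by omega)]; omega
      have h5 : 2 ^ i ≤ (p - 1) / P0 := by
        rw [← hp.2]; exact Nat.pow_log_le_self 2 (by omega)
      have h6 : (p - 1) / P0 < 2 ^ (i + 1) := by
        rw [← hp.2]; exact Nat.lt_pow_succ_log_self (by norm_num) _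
      rw [Nat.le_div_iff_mul_le (by omega)] at h5
      rw [Nat.div_lt_iff_lt_mul (by omega)] at h6
      constructor
      · rw [mul_comm]; omega
      · have h7 : 2 ^ (i + 1) * P0 = 2 * (P0 * 2 ^ i) := by rw [pow_succ]; ring
        rw [h7] at h6
        omega
    · intro p hp
      rw [Finset.mem_filter] at hp
      exact ((hWmem p).1 hp.1).1.2
  -- the geometric series
  have hsqrt2 : 1 / Real.sqrt 2 ≤ 3 / 4 := by
    rw [div_le_div_iff₀ (by positivity) (by norm_num)]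
    have h1 : (4 / 3 : ℝ) ≤ Real.sqrt 2 := by
      apply Real.le_sqrt_of_sq_le; norm_num
    linarith
  have hgeo : ∑ i ∈ range (j + 1), 2 * D / Real.sqrt ((P0 * 2 ^ i : ℕ) : ℝ) ≤ 16 * D * (1 / u) := by
    have h1 : ∀ i : ℕ, 2 * D / Real.sqrt ((P0 * 2 ^ i : ℕ) : ℝ) ≤
        (4 * D / u) * (3 / 4) ^ i := by
      intro i
      have h2 : Real.sqrt ((P0 * 2 ^ i : ℕ) : ℝ) = Real.sqrt P0 * (Real.sqrt 2) ^ i := by
        push_cast
        rw [Real.sqrt_mul (by positivity)]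
        congr 1
        rw [Real.sqrt_eq_iff_mul_self_eq (by positivity) (by positivity), ← mul_pow,
          Real.mul_self_sqrt (by norm_num)]
      have h3 : u / 2 ≤ Real.sqrt P0 := by
        apply Real.le_sqrt_of_sq_le
        nlinarith
      have h4 : 0 < Real.sqrt P0 := Real.sqrt_pos.2 (by linarith)
      have h5 : 1 / Real.sqrt P0 ≤ 2 / u := by
        rw [div_le_div_iff₀ h4 hupos]
        linarith
      have h6 : (1 / Real.sqrt 2) ^ i ≤ (3 / 4) ^ i := pow_le_pow_left₀ (by positivity) hsqrt2 i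
      rw [h2]
      calc 2 * D / (Real.sqrt P0 * Real.sqrt 2 ^ i) =
          2 * D * ((1 / Real.sqrt P0) * (1 / Real.sqrt 2) ^ i) := by
            rw [one_div_pow]; field_simp
        _ ≤ 2 * D * ((2 / u) * (3 / 4) ^ i) := by gcongr
        _ = (4 * D / u) * (3 / 4) ^ i := by ring
    calc ∑ i ∈ range (j + 1), 2 * D / Real.sqrt ((P0 * 2 ^ i : ℕ) : ℝ) ≤
        ∑ i ∈ range (j + 1), (4 * D / u) * (3 / 4) ^ i := Finset.sum_le_sum fun i _ => h1 i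
      _ = (4 * D / u) * ∑ i ∈ range (j + 1), (3 / 4 : ℝ) ^ i := by rw [Finset.mul_sum]
      _ ≤ (4 * D / u) * 4 := by
          gcongr
          have := geom_sum_eq (show (3 / 4 : ℝ) ≠ 1 by norm_num) (j + 1)
          rw [this]
          have h7 : (0 : ℝ) ≤ (3 / 4) ^ (j + 1) := by positivity
          rw [div_le_iff_of_neg (by norm_num)]
          linarith
      _ = 16 * D * (1 / u) := by ring
  -- the error terms
  have herr : ∑ _i ∈ range (j + 1), 4 * D * Real.sqrt (((j : ℝ) + 1) * D / Y) ≤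
      4 * L * D * (1 / u) := by
    rw [Finset.sum_const, Finset.card_range, nsmul_eq_mul]
    push_cast
    have h1 : ((j : ℝ) + 1) ^ 4 * D ≤ L ^ 2 * Y := by
      have h2 : (((j : ℝ) + 1) ^ 4 * D) ^ 2 ≤ (L ^ 2 * Y) ^ 2 := by
        calc (((j : ℝ) + 1) ^ 4 * D) ^ 2 = ((j : ℝ) + 1) ^ 8 * D ^ 2 := by ring
          _ ≤ (L ^ 4 * 2 ^ j) * D ^ 2 := by gcongr; exact hL j
          _ = L ^ 4 * (D ^ 2 * 2 ^ j) := by ring
          _ ≤ L ^ 4 * Y ^ 2 := by gcongr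
          _ = (L ^ 2 * Y) ^ 2 := by ring
      exact abs_le_of_sq_le_sq' h2 (by positivity) |>.2
    have h3 : (((j : ℝ) + 1) * Real.sqrt (((j : ℝ) + 1) * D / Y) * u) ^ 2 ≤ L ^ 2 := by
      rw [mul_pow, mul_pow, Real.sq_sqrt (by positivity)]
      have h4 : u ^ 2 ≤ (j : ℝ) + 1 := by
        have : u ^ 2 ≤ u ^ 4 := pow_le_pow_right₀ hu1 (by norm_num)
        rw [hu4] at this; linarith
      calc ((j : ℝ) + 1) ^ 2 * (((j : ℝ) + 1) * D / Y) * u ^ 2 ≤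
          ((j : ℝ) + 1) ^ 2 * (((j : ℝ) + 1) * D / Y) * ((j : ℝ) + 1) := by gcongr
        _ = ((j : ℝ) + 1) ^ 4 * D / Y := by ring
        _ ≤ L ^ 2 := by rw [div_le_iff₀ hY]; exact h1
    have h5 : ((j : ℝ) + 1) * Real.sqrt (((j : ℝ) + 1) * D / Y) * u ≤ L :=
      abs_le_of_sq_le_sq' h3 (by linarith) |>.2
    have h6 : ((j : ℝ) + 1) * Real.sqrt (((j : ℝ) + 1) * D / Y) ≤ L * (1 / u) := by
      rw [mul_one_div, le_div_iff₀ hupos]; exact h5
    calc ((j : ℝ) + 1) * (4 * D * Real.sqrt (((j : ℝ) + 1) * D / Y)) =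
        4 * D * (((j : ℝ) + 1) * Real.sqrt (((j : ℝ) + 1) * D / Y)) := by ring
      _ ≤ 4 * D * (L * (1 / u)) := by gcongr
      _ = 4 * L * D * (1 / u) := by ring
  have hSBle : ‖SB‖ ≤ 16 * D * (1 / u) + 4 * L * D * (1 / u) := by
    refine hnorm.trans ?_
    rw [Finset.sum_add_distrib]
    exact add_le_add hgeo herr
  -- the exceptions
  have hexc : (((Ioc N1 N2).filter (fun n => ∀ p ∈ W, ¬ p ∣ n)).card : ℝ) ≤
      2 * CS / Real.log 2 * D * (1 / u) := by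
    have h1 : ((Ioc N1 N2).filter (fun n => ∀ p ∈ W, ¬ p ∣ n)).card ≤
        ((Icc 1 N2).filter (fun n => ∀ p ∈ W, ¬ p ∣ n)).card := by
      apply Finset.card_le_card
      apply Finset.filter_subset_filter
      intro n hn
      rw [Finset.mem_Ioc] at hn
      rw [Finset.mem_Icc]
      omega
    have h2 := hsv P0 (2 ^ j) N2 hP01 hQ0 hN
    have h3 : (((Ioc N1 N2).filter (fun n => ∀ p ∈ W, ¬ p ∣ n)).card : ℝ) ≤
        CS * N2 * P0 / Real.log ((2 ^ j : ℕ) : ℝ) := le_trans (by exact_mod_cast h1) h2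
    refine h3.trans ?_
    push_cast
    rw [Real.log_pow]
    have h4 : CS * (N2 : ℝ) * P0 ≤ CS * (2 * D) * u ^ 2 := by gcongr
    calc CS * (N2 : ℝ) * P0 / ((j : ℝ) * Real.log 2) ≤
        CS * (2 * D) * u ^ 2 / ((j : ℝ) * Real.log 2) := by gcongr
      _ = 2 * CS / Real.log 2 * D * (1 / u ^ 2) := by
          rw [← hu4]; field_simp
      _ ≤ 2 * CS / Real.log 2 * D * (1 / u) := by
          gcongr
          exact le_self_pow₀ hu1 (by norm_num)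
  have hsq : ∑ p ∈ W, (N2 : ℝ) / (p : ℝ) ^ 2 ≤ 4 * D * (1 / u) := by
    have h1 : ∑ p ∈ W, (N2 : ℝ) / (p : ℝ) ^ 2 ≤ ∑ p ∈ Ioc P0 (2 ^ j), (2 * D) * ((p : ℝ) ^ 2)⁻¹ := by
      refine (Finset.sum_le_sum_of_subset_of_nonneg (t := Ioc P0 (2 ^ j)) (Finset.filter_subset _ _)
        (fun p _ _ => by positivity)).trans (Finset.sum_le_sum fun p _ => ?_)
      rw [div_eq_mul_inv]
      gcongr
    have h2 : P0 ≤ 2 ^ j := by
      have h3 : P0 ≤ j := Nat.sqrt_le_self j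
      exact h3.trans (Nat.lt_two_pow_self).le
    have h3 := sum_Ioc_inv_sq_le_sub (α := ℝ) (k := P0) (n := 2 ^ j) (by omega) h2
    rw [← Finset.mul_sum] at h1
    refine h1.trans ?_
    have h4 : (0 : ℝ) ≤ (((2 ^ j : ℕ) : ℝ))⁻¹ := by positivity
    have h5 : ∑ i ∈ Ioc P0 (2 ^ j), ((i : ℝ) ^ 2)⁻¹ ≤ (P0 : ℝ)⁻¹ := by linarith
    have h6 : (P0 : ℝ)⁻¹ ≤ 2 * (1 / u) := by
      have h7 : (P0 : ℝ)⁻¹ ≤ 2 / u ^ 2 := by
        rw [inv_eq_one_div, div_le_div_iff₀ (by linarith) (by positivity)]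
        linarith
      refine h7.trans ?_
      rw [mul_one_div]
      gcongr
      exact le_self_pow₀ hu1 (by norm_num)
    calc 2 * D * ∑ i ∈ Ioc P0 (2 ^ j), ((i : ℝ) ^ 2)⁻¹ ≤ 2 * D * (2 * (1 / u)) := by
          gcongr
          exact h5.trans h6
      _ = 4 * D * (1 / u) := by ring
  -- conclusion
  have hfin : ‖∑ n ∈ Ioc N1 N2, ((mu n : ℝ) : ℂ) * ee (Y / n)‖ ≤
      ‖(∑ n ∈ Ioc N1 N2, ((mu n : ℝ) : ℂ) * ee (Y / n)) + SB‖ + ‖SB‖ := by
    have := norm_add_le ((∑ n ∈ Ioc N1 N2, ((mu n : ℝ) : ℂ) * ee (Y / n)) + SB) (-SB)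
    rw [add_neg_cancel_right, norm_neg] at this
    exact this
  have hram' : ‖(∑ n ∈ Ioc N1 N2, ((mu n : ℝ) : ℂ) * ee (Y / n)) + SB‖ ≤
      (((Ioc N1 N2).filter (fun n => ∀ p ∈ W, ¬ p ∣ n)).card : ℝ) +
        ∑ p ∈ W, (N2 : ℝ) / (p : ℝ) ^ 2 := hram
  calc ‖∑ n ∈ Ioc N1 N2, ((mu n : ℝ) : ℂ) * ee (Y / n)‖ ≤ _ := hfin
    _ ≤ (2 * CS / Real.log 2 * D * (1 / u) + 4 * D * (1 / u)) +
        (16 * D * (1 / u) + 4 * L * D * (1 / u)) :=
        add_le_add (hram'.trans (add_le_add hexc hsq)) hSBle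
    _ = _ := by ring

end AM
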