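import Mathlib
import Pool.Agent.helper68.AM.Spec
import Pool.Agent.helper68.AM.Tree

/-!
Project sl: (AM), module RSD: weight of the leaves resonant with a small direction.
-/

set_option autoImplicit false

namespace AM

open Pool.Agent.helper72.Sq Finset

open Classical in
/-- the summand -/
noncomputable def RSD_w (κ : ℝ) (j q : ℕ) (a s : Nd → ℕ) (y : Nd) : ℝ :=
  if Bad κ j y (a y) (s y) ∧ -(2 ^ (q + 1)) < dx y (a y) (s y) ∧ dy y (a y) (s y) < 2 ^ (q + 1)
      then 1 / ((y.m1 : ℝ) * y.m2) else 0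

/-- exponentials beat powers -/
theorem RSD_q0 (C3 : ℕ) (hC : 1 ≤ C3) : ∃ q0 : ℕ, ∀ q ≥ q0, (C3 * (q + 1)) ^ 6 ≤ 2 ^ q := by
  have h1 : Filter.Tendsto (fun n : ℕ => (n : ℝ) ^ 6 / (2 : ℝ) ^ n) Filter.atTop (nhds 0) :=
    tendsto_pow_const_div_const_pow_of_one_lt 6 (by norm_num)
  have h2 := (Filter.tendsto_add_atTop_iff_nat 1).2 h1
  have hpos : (0 : ℝ) < 1 / (2 * (C3 : ℝ) ^ 6) := by
    have : (0 : ℝ) < C3 := by exact_mod_cast hC
    positivity
  obtain ⟨q0, hq0⟩ := Filter.eventually_atTop.1 (h2.eventually (gt_mem_nhds hpos))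
  refine ⟨q0, fun q hq => ?_⟩
  have h3 := (hq0 q hq).le
  have hC' : (0 : ℝ) < C3 := by exact_mod_cast hC
  rw [div_le_div_iff₀ (by positivity) (by positivity)] at h3
  have h4 : ((C3 * (q + 1) : ℕ) : ℝ) ^ 6 ≤ (2 : ℝ) ^ q := by
    push_cast at h3 ⊢
    rw [pow_succ (2 : ℝ) q] at h3
    rw [mul_pow]
    nlinarith
  exact_mod_cast h4

theorem RSD (hA : RSA_stmt) (hC : RSC_stmt) (hP : RSP_stmt) : RSD_stmt := by
  intro P hGr κ hκ
  have hpar := Par_of_Gr hGr
  have hrt := GN_rt hGr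
  set c := min (ltau P.1) (ltau P.2.1)
  set c' := max (len P.1) (len P.2.1)
  set k := kap P
  set t0 := min P.1 P.2.1
  obtain ⟨CA, hCA, hA'⟩ := hA c c' k t0 hpar κ hκ
  obtain ⟨C3, jC, hC3, hC'⟩ := hC c c' k t0 hpar κ hκ
  obtain ⟨c5, hc5, jP, hP'⟩ := hP P hGr κ hκ
  obtain ⟨q0, hq0⟩ := RSD_q0 C3 hC3
  have hC3' : (0 : ℝ) < C3 := by exact_mod_cast hC3
  refine ⟨CA * C3 ^ 2, by positivity, max (max jC jP) (C3 * (q0 + 1) + 1), ?_⟩
  intro j M q hj hjM hq a s
  have hj1 : jC ≤ j := (le_max_left _ _).trans ((le_max_left _ _).trans hj)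
  have hj2 : jP ≤ j := (le_max_right _ _).trans ((le_max_left _ _).trans hj)
  have hj3 : C3 * (q0 + 1) + 1 ≤ j := (le_max_right _ _).trans hj
  have hjpos : 1 ≤ j := by omega
  have hBj : C3 * (q + 1) ≤ j := by
    by_contra hcon
    push Not at hcon
    have h1 : q0 ≤ q := by
      by_contra h
      push Not at h
      have : C3 * (q + 1) ≤ C3 * (q0 + 1) := Nat.mul_le_mul_left _ (by omega)
      omega
    have h2 : j ^ 6 < (C3 * (q + 1)) ^ 6 := Nat.pow_lt_pow_left hcon (by norm_num)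
    have h3 := hq0 q h1
    omega
  have hjr : (0 : ℝ) < j := by exact_mod_cast hjpos
  show lsum M M (rt P) (RSD_w κ j q a s) ≤ _
  have key : ∀ (n : ℕ) (x : Nd), GN c c' k t0 x → x.m1 + x.m2 ≤ 2 * (C3 * (q + 1)) →
      M ≤ x.m1 + x.m2 + n → (∀ y ∈ lvs M n x, y ∈ lvs M M (rt P)) →
      lsum M n x (RSD_w κ j q a s) ≤
        CA / j * (C3 * (q + 1) : ℝ) ^ 2 * (1 / ((x.m1 : ℝ) * x.m2)) := by
    -- nodes of the right size
    have hdir : ∀ (n : ℕ) (x : Nd), GN c c' k t0 x → C3 * (q + 1) ≤ x.m1 + x.m2 →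
        x.m1 + x.m2 ≤ 2 * (C3 * (q + 1)) →
        M ≤ x.m1 + x.m2 + n → (∀ y ∈ lvs M n x, y ∈ lvs M M (rt P)) →
        lsum M n x (RSD_w κ j q a s) ≤
          CA / j * (C3 * (q + 1) : ℝ) ^ 2 * (1 / ((x.m1 : ℝ) * x.m2)) := by
      intro n x hx hge hle hn hsub
      have hm1 : (1 : ℝ) ≤ x.m1 := by exact_mod_cast hx.m1_pos
      have hm2 : (1 : ℝ) ≤ x.m2 := by exact_mod_cast hx.m2_pos
      have h1 : lsum M n x (RSD_w κ j q a s) ≤ CA / j := by
        by_cases hex : ∃ y0 ∈ lvs M n x, Bad κ j y0 (a y0) (s y0) ∧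
            -(2 ^ (q + 1)) < dx y0 (a y0) (s y0) ∧ dy y0 (a y0) (s y0) < 2 ^ (q + 1)
        · obtain ⟨y0, hy0, hb0, hx0, hd0⟩ := hex
          obtain ⟨hn0, hp0, hco0, hla0, -, -⟩ := hP' j M hj2 y0 (hsub y0 hy0) _ _ hb0
          refine le_trans ?_ (hA' j M n x (dx y0 (a y0) (s y0)) (dy y0 (a y0) (s y0)) hjpos hjM hx
            hn hn0 hp0)
          apply lsum_le
          intro y hy
          have hG := GN_lvs M n x hx y hy
          have b1 : (0 : ℝ) < y.m1 := by exact_mod_cast hG.m1_pos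
          have b2 : (0 : ℝ) < y.m2 := by exact_mod_cast hG.m2_pos
          rw [RSD_w]
          split_ifs with h2 h3 h3
          · exact le_rfl
          · exfalso
            apply h3
            obtain ⟨hb, hxx, hdd⟩ := h2
            obtain ⟨hn1, hp1, hco1, hla1, -, -⟩ := hP' j M hj2 y (hsub y hy) _ _ hb
            obtain ⟨e1, e2⟩ := hC' j M n q x y y0 _ _ _ _ hj1 hq hx hge hle hy hy0 hn1 hp1 hn0 hp0
              hco1 hco0 hxx hdd hx0 hd0 hla1 hla0
            rw [← e1, ← e2]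
            exact hla1
          · positivity
          · exact le_rfl
        · push Not at hex
          have h2 : lsum M n x (RSD_w κ j q a s) = lsum M n x (fun _ => 0 * 0) := by
            apply lsum_congr
            intro y hy
            rw [RSD_w, if_neg, mul_zero]
            rintro ⟨h3, h4, h5⟩
            exact absurd h5 (not_lt.2 (hex y hy h3 h4))
          rw [h2, lsum_mul, zero_mul]
          positivity
      refine h1.trans ?_
      have h3 : (x.m1 : ℝ) * x.m2 ≤ (C3 * (q + 1) : ℝ) ^ 2 := by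
        have h4 : ((x.m1 : ℝ) + x.m2) ≤ 2 * (C3 * (q + 1)) := by exact_mod_cast hle
        nlinarith [sq_nonneg ((x.m1 : ℝ) - x.m2)]
      rw [mul_assoc]
      refine le_mul_of_one_le_right (by positivity) ?_
      rw [mul_one_div, le_div_iff₀ (by positivity), one_mul]
      exact h3
    intro n
    induction n with
    | zero =>
      intro x hx hle hn hsub
      exact hdir 0 x hx (by omega) hle hn hsub
    | succ n ih =>
      intro x hx hle hn hsub
      by_cases hge : C3 * (q + 1) ≤ x.m1 + x.m2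
      · exact hdir (n + 1) x hx hge hle hn hsub
      · push Not at hge
        have hM : ¬ M ≤ x.m1 + x.m2 := by omega
        have p1 := hx.m1_pos
        have p2 := hx.m2_pos
        rw [lsum_succ, if_neg hM, weight_split hx, mul_add]
        refine add_le_add (ih _ hx.L ?_ ?_ ?_) (ih _ hx.R ?_ ?_ ?_)
        · rw [L_m1, L_m2]; omega
        · rw [L_m1, L_m2]; omega
        · intro y hy
          exact hsub y (by simp [lvs, hM, hy])
        · rw [R_m1, R_m2]; omega
        · rw [R_m1, R_m2]; omega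
        · intro y hy
          exact hsub y (by simp [lvs, hM, hy])
  have h1 := key M (rt P) hrt (by
    rw [rt_m1, rt_m2]
    have : 1 ≤ C3 * (q + 1) := Nat.one_le_iff_ne_zero.2 (by positivity)
    omega) (by omega) (fun y hy => hy)
  refine h1.trans (le_of_eq ?_)
  rw [rt_m1, rt_m2]
  push_cast
  ring

end AM
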